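import Mathlib
import Pool.Agent.Work.RK.ThinAlg
import Pool.Agent.Work.RK.ThinRead

/-!
# Polynomial-time identity testing for constant-read arithmetic expressions

For all constants `k` and `c` there is a deterministic polynomial-time algorithm that tests whether
an arithmetic expression defines a nonzero polynomial, never accepts an expression that defines the
zero polynomial, and is correct on all expressions that arise from a `c`-thin expression by
identifying at most `k` variables at a time. The case `c = 0` contains all expressions in which
each variable occurs at most `k` times (`Pool.Agent.PIT.TH.thinIdent_of_count`).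
-/

set_option autoImplicit false

namespace Pool.Agent.Results.MP_3c5c20_lc.BoundedRead

open Pool.Agent.PIT Turing

/-- Expressions in which all but at most `c` variables occur at most `k` times belong to the class
considered. -/
theorem thinIdent_of_count {k c : ℕ} (hk : 1 ≤ k) {s : List Sy} {E : Ex} (hs : Der 0 s E)
    (h : Set.encard {v : Name | k < E.vars.count v} ≤ c) : s ∈ ThinIdent k c :=
  TH.thinIdent_of_count hk hs h

/-- For all `k` and `c` there is a polynomial-time algorithm that accepts only elements of
NONZERO, and accepts all elements of NONZERO which belong to `ThinIdent k c`. -/
theorem result (k c : ℕ) : ∃ f : List Sy → Bool,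
    Nonempty (TM2ComputableInPolyTime scode (fun b : Bool => [b]) f) ∧
    (∀ s, f s = true → s ∈ Nonzero) ∧ ∀ s ∈ ThinIdent k c, s ∈ Nonzero → f s = true :=
  TH.main k c

end Pool.Agent.Results.MP_3c5c20_lc.BoundedRead
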