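import Mathlib
import Pool.Agent.Work.MP_3c5c20_lc.Lang
import Pool.Agent.Work.MP_3c5c20_lc.QP.DepLang
import Pool.Agent.Work.MP_3c5c20_lc.QP.Main

/-!
# Deterministic identity testing for constant depth expressions in quasi-polynomial time
-/

set_option autoImplicit false

namespace Pool.Agent.Results.MP_3c5c20_lc.ConstantDepth

open Pool.Agent.PIT Turing

/-- **Deterministic identity testing for arithmetic expressions of constant depth in
quasi-polynomial time.** There is a constant `k` such that, for every `D`, there is a deterministic
(multi-stack) Turing machine which, given the binary encoding (of length `n`) of a string `s`, needs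
at most `2 ^ (log₂ n + 2) ^ (k * 100 ^ D)` steps, never accepts a string outside NONZERO and accepts
every expression in NONZERO of product depth at most `D`. -/
theorem result : ∃ k : ℕ, ∀ D : ℕ, ∃ (f : List Sy → Bool)
    (T : TM2ComputableInTime scode (fun b : Bool => [b]) f),
    (∀ s : List Sy, f s = true → s ∈ Nonzero) ∧
    (∀ (s : List Sy) (E : Ex), Der 0 s E → E.dep false ≤ D → (f s = true ↔ s ∈ Nonzero)) ∧
    ∀ n : ℕ, T.time n ≤ 2 ^ (Nat.log 2 n + 2) ^ (k * 100 ^ D) :=
  Pool.Agent.Work.MP_3c5c20_lc.QP.full_Final

end Pool.Agent.Results.MP_3c5c20_lc.ConstantDepth
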