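import Pool.Agent.Work.MP_3c5c20_lc.PIT.HSet

/-!
# MP_3c5c20_lc: explicit hitting sets of quasi-polynomial size for circuits of constant depth

`hset D h N` is an explicit finite set of points with natural coordinates. It has at most
`2 ^ (1301 h) ^ (10 ^ (2 D + 6))` points, so quasi-polynomially many in `2 ^ h` for fixed `D`, and
it contains a nonzero of every nonzero polynomial of degree less than `2 ^ h` in `N ≤ 2 ^ h`
variables that is computed, over any field of characteristic zero, by a circuit with fewer than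
`2 ^ h` gates and levels at most `D`. Gates: sums and products of unbounded fan-in, arbitrary
polynomials in at most `h ^ 2` gates, arbitrary polynomials of degree at most `h` in the variables.
-/

namespace Pool.Agent.Results.MP_3c5c20_lc.ConstantDepthHitting

open MvPolynomial Pool.Agent.Work.MP_499dc6_lc.CDG Pool.Agent.Work.MP_3c5c20_lc.PIT

theorem result :
    (∀ D h N : ℕ, 1 ≤ h → (hset D h N).card ≤ 2 ^ (1301 * h) ^ 10 ^ (2 * D + 6)) ∧
    ∀ (K : Type) [Field K] [CharZero K] (D h N s e r : ℕ) (F : Fin s → MvPolynomial (Fin N) K)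
      (d : Fin s → ℕ), 1 ≤ h → N ≤ 2 ^ h → s < 2 ^ h → e ≤ h → r ≤ h ^ 2 → IsCirc e r F d →
      (∀ i, d i ≤ D) → ∀ i, F i ≠ 0 → (F i).totalDegree < 2 ^ h →
      ∃ x ∈ hset D h N, eval (fun j => (x j : K)) (F i) ≠ 0 :=
  ⟨fun D h N hh => hset_card D h N hh,
    fun K _ _ D h N s e r F d hh hN hs he hr hF hd i h0 hdeg =>
      hset_hits K D h N s e r hh hN hs he hr F d hF hd i h0 hdeg⟩

end Pool.Agent.Results.MP_3c5c20_lc.ConstantDepthHitting
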