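import Mathlib
import Pool.Agent.Work.MP_3c5c20_lc.Lang
import Pool.Agent.Work.MP_3c5c20_lc.Code

/-!
# Deterministic identity testing for arithmetic expressions in time `2 ^ O(√(n log n))`
-/

set_option autoImplicit false

namespace Pool.Agent.Results.MP_3c5c20_lc.SubexponentialTime

open Pool.Agent.PIT Turing

/-- **Deterministic identity testing for arithmetic expressions in subexponential time.** There are
a constant `C` and a deterministic (multi-stack) Turing machine which, given the binary encoding (of
length `n`) of a string `s`, decides whether `s` is an arithmetic expression defining a nonzero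
polynomial, in at most `2 ^ (C * (⌊√(n ⌊log₂ n⌋)⌋ + 1))` steps. -/
theorem result : ∃ (C : ℕ) (f : List Sy → Bool)
    (T : TM2ComputableInTime scode (fun b : Bool => [b]) f),
    (∀ s : List Sy, f s = true ↔ s ∈ Nonzero) ∧
    ∀ n : ℕ, T.time n ≤ 2 ^ (C * (Nat.sqrt (n * Nat.log 2 n) + 1)) := by
  obtain ⟨C, T, hT⟩ := exists_machine
  refine ⟨C, decideS, T, fun s => ?_, hT⟩
  rw [decideS_iff]
  constructor
  · rintro ⟨E, hE, hne⟩
    exact ⟨E, hE, (npoly_ne_zero_iff hE).2 hne⟩
  · rintro ⟨E, hE, hne⟩
    exact ⟨E, hE, (npoly_ne_zero_iff hE).1 hne⟩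

end Pool.Agent.Results.MP_3c5c20_lc.SubexponentialTime
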